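import Pool.Agent.Lib.MP_bf61d2_nt.Artin.Defs63
import Pool.Agent.Lib.MP_bf61d2_nt.Artin.L.StmtsL63

set_option autoImplicit false

/-!
ARTIN EDGE, local form (MP_bf61d2_nt): logarithmic derivatives at every scale. Definitions and
statements of the modules.
-/

namespace Pool.Agent.Lib.MP_bf61d2_nt.Artin.LA

open NumberField IsDedekindDomain Filter Topology Polynomial Module
open Pool.Agent.Lib.MP_bf61d2_nt.Perm
open Pool.Agent.Lib.MP_bf61d2_nt.Artin

universe u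

/-- The weight `q ^ (-σ) log q`. -/
noncomputable def wd {K : Type*} [Field K] [NumberField K] (σ : ℝ) (v : HeightOneSpectrum (𝓞 K)) :
    ℝ := wp σ v * Real.log (nm v)

/-- The weighted sum over the places, with logarithms. -/
noncomputable def SD {K : Type*} [Field K] [NumberField K] (σ : ℝ)
    (f : HeightOneSpectrum (𝓞 K) → ℂ) : ℂ := ∑' v, (wd σ v : ℂ) * f v

section Basic

variable {K : Type*} [Field K] [NumberField K]

lemma log_nm_pos (v : HeightOneSpectrum (𝓞 K)) : 0 < Real.log (nm v) :=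
  Real.log_pos (by exact_mod_cast one_lt_nm v)

lemma wd_pos (σ : ℝ) (v : HeightOneSpectrum (𝓞 K)) : 0 < wd σ v :=
  mul_pos (wp_pos _ v) (log_nm_pos v)

lemma wd_le {σ : ℝ} (hσ : 1 < σ) (v : HeightOneSpectrum (𝓞 K)) :
    wd σ v ≤ 2 / (σ - 1) * wp ((1 + σ) / 2) v := by
  have hx : 0 < σ - 1 := by linarith
  have h0 : (0 : ℝ) < nm v := nm_pos' v
  have h1 := Real.log_le_rpow_div h0.le (ε := (σ - 1) / 2) (by positivity)
  have h2 : wp σ v * (nm v : ℝ) ^ ((σ - 1) / 2) = wp ((1 + σ) / 2) v := by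
    rw [wp, wp, ← Real.rpow_add h0]
    congr 1
    ring
  calc wd σ v ≤ wp σ v * ((nm v : ℝ) ^ ((σ - 1) / 2) / ((σ - 1) / 2)) :=
        mul_le_mul_of_nonneg_left h1 (wp_pos _ v).le
    _ = 2 / (σ - 1) * (wp σ v * (nm v : ℝ) ^ ((σ - 1) / 2)) := by field_simp
    _ = _ := by rw [h2]

lemma summable_wd {σ : ℝ} (hσ : 1 < σ) : Summable fun v : HeightOneSpectrum (𝓞 K) => wd σ v :=
  Summable.of_nonneg_of_le (fun v => (wd_pos σ v).le) (fun v => wd_le hσ v)
    ((summable_wp (K := K) (by linarith : 1 < (1 + σ) / 2)).mul_left _)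

lemma SD_eq_WL {K : Type u} [Field K] [NumberField K] (x : ℝ) (f : HeightOneSpectrum (𝓞 K) → ℂ) :
    SD (1 + x) f = Ray.WL x f := rfl

end Basic

/-- Equidistribution with the twists `n ^ (-i u)` and an error of smaller order, with
logarithms. -/
def WEqL {K M : Type*} [Field K] [NumberField K] [Field M] [NumberField M] [Algebra K M]
    [Fintype Gal(M/K)] (Fr : HeightOneSpectrum (𝓞 K) → Gal(M/K)) (f : Gal(M/K) → ℂ) : Prop :=
  ∀ (u ε : ℝ), 0 < ε → ∀ᶠ σ : ℝ in 𝓝[>] 1,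
    ‖SD σ (fun v => f (Fr v) * ph u (nm v)) -
      (if u = 0 then (∑ g, f g) / Fintype.card Gal(M/K) else 0) * ((1 / (σ - 1) : ℝ) : ℂ)‖ ≤
      ε * (1 / (σ - 1))

/-- Equidistribution with the twists `n ^ (-i u)` and a bounded error, with logarithms. -/
def CEqL {K M : Type*} [Field K] [NumberField K] [Field M] [NumberField M] [Algebra K M]
    [Fintype Gal(M/K)] (Fr : HeightOneSpectrum (𝓞 K) → Gal(M/K)) (f : Gal(M/K) → ℂ) : Prop :=
  ∀ u : ℝ, ∃ C : ℝ, 0 ≤ C ∧ ∀ᶠ σ : ℝ in 𝓝[>] 1,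
    ‖SD σ (fun v => f (Fr v) * ph u (nm v)) -
      (if u = 0 then (∑ g, f g) / Fintype.card Gal(M/K) else 0) * ((1 / (σ - 1) : ℝ) : ℂ)‖ ≤ C

/-- CHARL (local form of `charsum`, N4h3). -/
def StCHARL (F L : Type u) [Field F] [NumberField F] [Field L] [NumberField L] [Algebra F L] :
    Prop := ∀ (m : ℕ) [NeZero m] (_ : 2 < m) (ζ : L) (hζ : IsPrimitiveRoot ζ m)
    (χ : DirichletCharacter ℂ m) (_ : χ.Even) (u : ℝ),
    ∃ C : ℝ, 0 ≤ C ∧ ∀ᶠ σ : ℝ in 𝓝[>] 1,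
      ‖SD (K := F) σ (fun v => χ (nm v) * ph u (nm v)) -
        (open scoped Classical in
        if u = 0 ∧ ∀ g : Gal(L/F), χ ((hζ.autToPow F g : (ZMod m)ˣ) : ZMod m) = 1 then
          ((1 / (σ - 1) : ℝ) : ℂ) else 0)‖ ≤ C

/-- CHEBL: the theorem of Chebotarev with the twists `n ^ (-i u)`, with logarithms. -/
def StCHEBL (K M : Type*) [Field K] [NumberField K] [Field M] [NumberField M] [Algebra K M]
    [Fintype Gal(M/K)] : Prop :=
  ∀ (Fr : HeightOneSpectrum (𝓞 K) → Gal(M/K)), (∀ v, IsFr v (Fr v)) → ∀ f : Gal(M/K) → ℂ,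
    IsClassFn f → WEqL Fr f

end Pool.Agent.Lib.MP_bf61d2_nt.Artin.LA
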