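import Pool.Agent.Lib.MP_bf61d2_nt.Artin.LA.REGL77
import Pool.Agent.Lib.MP_bf61d2_nt.Artin.S1x29
import Pool.Agent.Lib.MP_bf61d2_nt.Artin.K1x63

set_option autoImplicit false

/-!
LOCAL ARTIN (MP_bf61d2_nt), module KSL: the prime sums with logarithms of a base change, of a
quadratic twist and of a conjugate of an elliptic curve.
-/

namespace Pool.Agent.Lib.MP_bf61d2_nt.Artin.LA

open NumberField IsDedekindDomain Filter Topology Polynomial Module WeierstrassCurve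
open Pool.Agent.Lib.MP_bf61d2_nt.Perm
open Pool.Agent.Lib.MP_bf61d2_nt.Artin

namespace KSL3

lemma norm_ph (u : ℝ) (n : ℕ) : ‖ph u n‖ = 1 := by
  rw [ph, Complex.norm_exp_ofReal_mul_I]

section Basic

variable {F : Type*} [Field F] [NumberField F]

lemma wd_le_one {σ : ℝ} (hσ : 1 < σ) (v : HeightOneSpectrum (𝓞 F)) : wd σ v ≤ 1 := by
  have h0 : (0 : ℝ) < nm v := nm_pos' v
  have h1 : (1 : ℝ) ≤ nm v := by exact_mod_cast (one_lt_nm v).le
  have h2 : wp σ v ≤ (nm v : ℝ)⁻¹ := by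
    rw [wp, ← Real.rpow_neg_one]
    exact Real.rpow_le_rpow_of_exponent_le h1 (by linarith)
  have h3 : Real.log (nm v) ≤ nm v := (Real.log_le_sub_one_of_pos h0).trans (by linarith)
  have h4 : 0 ≤ Real.log (nm v) := (log_nm_pos v).le
  calc wd σ v ≤ (nm v : ℝ)⁻¹ * nm v := mul_le_mul h2 h3 h4 (by positivity)
    _ = 1 := inv_mul_cancel₀ h0.ne'

lemma norm_wd (σ : ℝ) (v : HeightOneSpectrum (𝓞 F)) : ‖(wd σ v : ℂ)‖ = wd σ v := by
  rw [Complex.norm_real, Real.norm_eq_abs, abs_of_pos (wd_pos σ v)]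

lemma summable_wd_mul {σ : ℝ} (hσ : 1 < σ) {f : HeightOneSpectrum (𝓞 F) → ℂ} {A : ℝ}
    (hf : ∀ v, ‖f v‖ ≤ A) : Summable fun v => (wd σ v : ℂ) * f v := by
  refine Summable.of_norm_bounded ((summable_wd (K := F) hσ).mul_right A) fun v => ?_
  rw [norm_mul, norm_wd]
  exact mul_le_mul_of_nonneg_left (hf v) (wd_pos σ v).le

/-- Two sums which differ at finitely many places only. -/
lemma norm_SD_sub_le {a b : HeightOneSpectrum (𝓞 F) → ℂ} {A : ℝ} (ha : ∀ v, ‖a v‖ ≤ A)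
    (hb : ∀ v, ‖b v‖ ≤ A) (S : Finset (HeightOneSpectrum (𝓞 F))) (hab : ∀ v, v ∉ S → a v = b v)
    {σ : ℝ} (hσ : 1 < σ) : ‖SD σ a - SD σ b‖ ≤ 2 * A * S.card := by
  classical
  have hs1 := summable_wd_mul hσ ha
  have hs2 := summable_wd_mul hσ hb
  have e : SD σ a - SD σ b = ∑ v ∈ S, ((wd σ v : ℂ) * a v - (wd σ v : ℂ) * b v) := by
    rw [SD, SD, ← hs1.tsum_sub hs2]
    refine tsum_eq_sum fun v hv => ?_
    rw [hab v hv, sub_self]
  rw [e]
  refine (norm_sum_le _ _).trans ?_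
  calc ∑ v ∈ S, ‖(wd σ v : ℂ) * a v - (wd σ v : ℂ) * b v‖ ≤ ∑ _v ∈ S, 2 * A := by
        refine Finset.sum_le_sum fun v _ => ?_
        rw [← mul_sub, norm_mul, norm_wd]
        have h1 : ‖a v - b v‖ ≤ 2 * A := (norm_sub_le _ _).trans (by linarith [ha v, hb v])
        calc wd σ v * ‖a v - b v‖ ≤ 1 * (2 * A) :=
              mul_le_mul (wd_le_one hσ v) h1 (norm_nonneg _) zero_le_one
          _ = 2 * A := one_mul _
    _ = 2 * A * S.card := by rw [Finset.sum_const, nsmul_eq_mul]; ring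

lemma norm_cc_le (E : WeierstrassCurve F) (v : HeightOneSpectrum (𝓞 F)) :
    ‖(cc E v : ℂ)‖ ≤ 2 := by
  rw [Complex.norm_real, Real.norm_eq_abs]
  exact abs_cc_le E v

lemma norm_cc_ph_le (E : WeierstrassCurve F) (t : ℝ) (v : HeightOneSpectrum (𝓞 F)) :
    ‖(cc E v : ℂ) * ph t (nm v)‖ ≤ 2 := by
  rw [norm_mul, norm_ph, mul_one]
  exact norm_cc_le E v

end Basic

end KSL3

open KSL3

/-- The prime sum of the base change, uniformly on the line. -/
theorem sd_baseChange {K : Type*} [Field K] [NumberField K] (E : WeierstrassCurve K)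
    [E.IsElliptic] (F : Type*) [Field F] [NumberField F] [Algebra K F] :
    ∃ C : ℝ, 0 ≤ C ∧ ∀ t δ : ℝ, 0 < δ →
      ‖SD (1 + δ) (fun w : HeightOneSpectrum (𝓞 F) => (cc (E.baseChange F) w : ℂ) * ph t (nm w)) -
        SD (1 + δ) (fun v : HeightOneSpectrum (𝓞 K) =>
          (r1 F v : ℂ) * ((cc E v : ℂ) * ph t (nm v)))‖ ≤ C := by
  obtain ⟨S, hS⟩ := exists_cc_baseChange E F
  obtain ⟨C, hC0, hC⟩ := regroupL (a := fun w => (cc (E.baseChange F) w : ℂ))
    (b := fun v => (cc E v : ℂ)) (fun w => norm_cc_le _ w) (fun v => norm_cc_le _ v) S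
    (fun w hw hn => by rw [hS w hw hn])
  exact ⟨C, hC0, fun t δ hδ => hC (fun n => ph t n) (fun n => (norm_ph t n).le) (1 + δ)
    (by linarith)⟩

/-- The prime sum over a quadratic extension, uniformly on the line. -/
theorem sd_quadratic {F : Type*} [Field F] [NumberField F] (E : WeierstrassCurve F)
    [E.IsElliptic] {d : F} (hd : ¬ IsSquare d) (L : Type*) [Field L] [NumberField L] [Algebra F L]
    (hL : finrank F L = 2) {θ : L} (hθ : θ ^ 2 = algebraMap F L d) :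
    ∃ C : ℝ, 0 ≤ C ∧ ∀ t δ : ℝ, 0 < δ →
      ‖SD (1 + δ) (fun v : HeightOneSpectrum (𝓞 F) => (cc (qt E d) v : ℂ) * ph t (nm v)) -
        (SD (1 + δ) (fun w : HeightOneSpectrum (𝓞 L) =>
          (cc (E.baseChange L) w : ℂ) * ph t (nm w)) -
          SD (1 + δ) (fun v : HeightOneSpectrum (𝓞 F) => (cc E v : ℂ) * ph t (nm v)))‖ ≤ C := by
  classical
  have hd0 : d ≠ 0 := by
    rintro rfl
    exact hd ⟨0, by simp⟩
  obtain ⟨e, m, he0, hm0, hem⟩ := exists_sqrep hd0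
  have hm : (m : F) ≠ 0 := by simpa using hm0
  obtain ⟨S, hS⟩ := exists_cc_qt E he0 hm0 hem
  have hfd : FiniteDimensional F L := Module.Finite.of_restrictScalars_finite ℚ F L
  have hquad : Algebra.IsQuadraticExtension F L := ⟨hL⟩
  have hn : Module.finrank (𝓞 F) (𝓞 L) = 2 :=
    (IsFractionRing.finrank_eq (𝓞 F) F (𝓞 L) L).symm.trans hL
  have hθ₀sq : (θ * algebraMap F L (m : F)) ^ 2 = algebraMap F L (e : F) := by
    rw [mul_pow, hθ, ← map_pow, ← map_mul, hem]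
  have hint : IsIntegral ℤ (θ * algebraMap F L (m : F)) := by
    refine IsIntegral.of_pow (n := 2) (by norm_num) ?_
    rw [hθ₀sq]
    exact (RingOfIntegers.isIntegral_coe e).algebraMap
  set θ' : 𝓞 L := ⟨θ * algebraMap F L (m : F), hint⟩ with hθ'
  have hcoe : (θ' : L) = θ * algebraMap F L (m : F) := rfl
  have hθ'sq : θ' ^ 2 = algebraMap (𝓞 F) (𝓞 L) e := by
    apply RingOfIntegers.coe_injective
    rw [map_pow]
    exact hθ₀sq
  have hθK : (θ' : L) ∉ (⊥ : IntermediateField F L) := by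
    rw [hcoe, IntermediateField.mem_bot]
    rintro ⟨y, hy⟩
    apply hd
    refine ⟨y / m, (algebraMap F L).injective ?_⟩
    have hmL : algebraMap F L (m : F) ≠ 0 := by simpa using hm
    rw [← hθ, map_mul, map_div₀, hy]
    field_simp
  have hr1 : ∀ v, v ∉ S → ((r1 L v : ℕ) : ℝ) = 1 + chi v e := fun v hv =>
    r1_quad hn hθ'sq hθK v (hS v hv).1 (hS v hv).2.1
  have hr2 : ∀ v : HeightOneSpectrum (𝓞 F), ((r1 L v : ℕ) : ℝ) ≤ 2 := by
    intro v
    have := r1_le (L := L) v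
    rw [hn] at this
    exact_mod_cast this
  obtain ⟨R, hR0, hR⟩ := sd_baseChange E L
  refine ⟨R + 2 * 6 * S.card, by positivity, fun t δ hδ => ?_⟩
  have hσ1 : 1 < 1 + δ := by linarith
  have hb : ∀ v : HeightOneSpectrum (𝓞 F),
      ‖(r1 L v : ℂ) * ((cc E v : ℂ) * ph t (nm v))‖ ≤ 4 := by
    intro v
    rw [norm_mul, Complex.norm_natCast]
    calc ((r1 L v : ℕ) : ℝ) * ‖(cc E v : ℂ) * ph t (nm v)‖ ≤ 2 * 2 :=
          mul_le_mul (hr2 v) (norm_cc_ph_le E t v) (norm_nonneg _) (by norm_num)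
      _ = 4 := by norm_num
  have h1 := hR t δ hδ
  have h2 := norm_SD_sub_le (F := F) (A := 6)
    (a := fun v => (cc (qt E d) v : ℂ) * ph t (nm v))
    (b := fun v => (r1 L v : ℂ) * ((cc E v : ℂ) * ph t (nm v)) - (cc E v : ℂ) * ph t (nm v))
    (fun v => (norm_cc_ph_le _ t v).trans (by norm_num))
    (fun v => (norm_sub_le _ _).trans (by linarith [hb v, norm_cc_ph_le E t v])) S
    (fun v hv => by
      have h3 : (r1 L v : ℂ) = 1 + chi v e := by exact_mod_cast hr1 v hv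
      rw [(hS v hv).2.2, h3]
      push_cast
      ring) hσ1
  have h3 : SD (1 + δ) (fun v : HeightOneSpectrum (𝓞 F) =>
      (r1 L v : ℂ) * ((cc E v : ℂ) * ph t (nm v)) - (cc E v : ℂ) * ph t (nm v)) =
      SD (1 + δ) (fun v : HeightOneSpectrum (𝓞 F) =>
        (r1 L v : ℂ) * ((cc E v : ℂ) * ph t (nm v))) -
      SD (1 + δ) (fun v : HeightOneSpectrum (𝓞 F) => (cc E v : ℂ) * ph t (nm v)) := by
    rw [SD, SD, SD, ← (summable_wd_mul hσ1 hb).tsum_sub
      (summable_wd_mul hσ1 (norm_cc_ph_le E t))]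
    exact tsum_congr fun v => mul_sub _ _ _
  rw [h3] at h2
  set X := SD (1 + δ) (fun v : HeightOneSpectrum (𝓞 F) => (cc (qt E d) v : ℂ) * ph t (nm v))
  set Y := SD (1 + δ) (fun w : HeightOneSpectrum (𝓞 L) =>
    (cc (E.baseChange L) w : ℂ) * ph t (nm w))
  set Z := SD (1 + δ) (fun v : HeightOneSpectrum (𝓞 F) => (cc E v : ℂ) * ph t (nm v))
  set V := SD (1 + δ) (fun v : HeightOneSpectrum (𝓞 F) =>
    (r1 L v : ℂ) * ((cc E v : ℂ) * ph t (nm v)))
  have e : X - (Y - Z) = (X - (V - Z)) - (Y - V) := by ring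
  rw [e]
  exact (norm_sub_le _ _).trans (by linarith)

section Good

variable {F : Type*} [Field F] [NumberField F]

/-- The prime sum of a conjugate curve. -/
theorem sd_conj3 (E : WeierstrassCurve F) [E.IsElliptic] (τ : F ≃+* F) :
    ∃ C : ℝ, 0 ≤ C ∧ ∀ t δ : ℝ, 0 < δ →
      ‖SD (1 + δ) (fun v : HeightOneSpectrum (𝓞 F) =>
          (cc (E.map (τ : F →+* F)) v : ℂ) * ph t (nm v)) -
        SD (1 + δ) (fun v : HeightOneSpectrum (𝓞 F) => (cc E v : ℂ) * ph t (nm v))‖ ≤ C := by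
  obtain ⟨S, hS⟩ := lp_conj63 τ E
  refine ⟨2 * 2 * S.card, by positivity, fun t δ hδ => ?_⟩
  have hσ : 1 < 1 + δ := by linarith
  have h3 : SD (1 + δ) (fun v : HeightOneSpectrum (𝓞 F) =>
      (cc (E.map (τ : F →+* F)) v : ℂ) * ph t (nm v)) =
      SD (1 + δ) (fun v : HeightOneSpectrum (𝓞 F) =>
        (cc (E.map (τ : F →+* F)) (eqv63 τ v) : ℂ) * ph t (nm v)) := by
    rw [SD, SD, ← Equiv.tsum_eq (eqv63 τ)]
    refine tsum_congr fun v => ?_
    rw [wd, wd, wp, wp, nm_eqv63]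
  rw [h3]
  refine norm_SD_sub_le (fun v => ?_) (norm_cc_ph_le E t) S (fun v hv => ?_) hσ
  · have := norm_cc_ph_le (E.map (τ : F →+* F)) t (eqv63 τ v)
    rwa [nm_eqv63] at this
  · rw [cc_eqv63 (hS v hv)]

end Good

/-- The prime sum of a conjugate curve. -/
theorem sd_conj {K F : Type*} [Field K] [Field F] [NumberField F] [Algebra K F]
    (E : WeierstrassCurve F) [E.IsElliptic] (τ : Gal(F/K)) :
    ∃ C : ℝ, 0 ≤ C ∧ ∀ t δ : ℝ, 0 < δ →
      ‖SD (1 + δ) (fun v : HeightOneSpectrum (𝓞 F) =>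
          (cc (E.map (τ : F →+* F)) v : ℂ) * ph t (nm v)) -
        SD (1 + δ) (fun v : HeightOneSpectrum (𝓞 F) => (cc E v : ℂ) * ph t (nm v))‖ ≤ C :=
  sd_conj3 E (τ : F ≃+* F)

end Pool.Agent.Lib.MP_bf61d2_nt.Artin.LA
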