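import Pool.Agent.Lib.MP_bf61d2_nt.Artin.LA.DefsLA63
import Pool.Agent.Lib.MP_bf61d2_nt.Artin.T7
import Pool.Agent.Lib.MP_bf61d2_nt.Artin.L.LELOG36

set_option autoImplicit false

/-!
ARTIN EDGE, local form (MP_bf61d2_nt), module LTWL: the logarithmic derivative of the Euler
product of the twist of an elliptic curve by a representation.
-/

namespace Pool.Agent.Lib.MP_bf61d2_nt.Artin.LA

open NumberField IsDedekindDomain Filter Topology Polynomial Module
open Pool.Agent.Lib.MP_bf61d2_nt.Perm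
open Pool.Agent.Lib.MP_bf61d2_nt.Artin

universe u

namespace LTWL36

open Pool.Agent.Lib.MP_bf61d2_nt.Artin.Ray.LELOG36

variable {K : Type u} [Field K] [NumberField K]

/-- The logarithm of the local factor with the eigenvalues `l`. -/
noncomputable def FF {ι : Type*} [Fintype ι] (E : WeierstrassCurve K)
    (v : HeightOneSpectrum (𝓞 K)) (l : ι → ℂ) (s : ℂ) : ℂ :=
  ∑ i, -Complex.log (1 - LTX84.zw E v (l i) s)

/-- The derivative of `FF`, without the factor `-log q`. -/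
noncomputable def DD {ι : Type*} [Fintype ι] (E : WeierstrassCurve K)
    (v : HeightOneSpectrum (𝓞 K)) (l : ι → ℂ) (s : ℂ) : ℂ :=
  ∑ i, nw E v (l i) s / (1 - LTX84.zw E v (l i) s)

lemma exists_ev {V : Type*} [AddCommGroup V] [Module ℂ V]
    [FiniteDimensional ℂ V] {G : Type*} [Group G] [Finite G] (ρ : Representation ℂ G V) (g : G) :
    ∃ l : Fin (finrank ℂ V) → ℂ, (∀ i, ‖l i‖ = 1) ∧ ρ.character g = ∑ i, l i ∧
      ∀ p : ℂ[X], LinearMap.det (aeval (ρ g) p) = ∏ i, p.eval (l i) := by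
  have ho := orderOf_pos g
  obtain ⟨l, hl, hp⟩ := exists_eigen (ρ g) (n := orderOf g) ho.ne'
    (by rw [← map_pow, pow_orderOf_eq_one, map_one])
  refine ⟨l, hl, ?_, fun p => (hp p).1⟩
  have := (hp X).2
  rw [aeval_X] at this
  simpa [Representation.character] using this

lemma exp_FF (E : WeierstrassCurve K) {V : Type*} [AddCommGroup V] [Module ℂ V]
    [FiniteDimensional ℂ V] {G : Type*} [Group G] [Finite G] (ρ : Representation ℂ G V)
    (v : HeightOneSpectrum (𝓞 K)) (g : G) {l : Fin (finrank ℂ V) → ℂ} (hl : ∀ i, ‖l i‖ = 1)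
    (hp : ∀ p : ℂ[X], LinearMap.det (aeval (ρ g) p) = ∏ i, p.eval (l i)) {s : ℂ}
    (hs : 3 / 2 ≤ s.re) :
    Complex.exp (FF E v l s) =
      (LinearMap.det (aeval (((nm v : ℂ) ^ (-s)) • ρ g) (lp E v)))⁻¹ := by
  rw [FF, Complex.exp_sum]
  have h1 : aeval (((nm v : ℂ) ^ (-s)) • ρ g) (lp E v) =
      aeval (ρ g) (1 - C ((tr E v : ℂ) * (nm v : ℂ) ^ (-s)) * X +
        C ((bb E v : ℂ) * ((nm v : ℂ) ^ (-s)) ^ 2) * X ^ 2 : ℂ[X]) := by
    rw [(lp_eq E v).1, quad]
    simp only [map_add, map_sub, map_mul, map_one, aeval_C, aeval_X, map_pow,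
      Algebra.algebraMap_eq_smul_one, _root_.smul_pow, one_pow, smul_mul_assoc, one_mul,
      Int.cast_smul_eq_zsmul]
  rw [h1, hp, ← Finset.prod_inv_distrib]
  refine Finset.prod_congr rfl fun i _ => ?_
  have hne : 1 - LTX84.zw E v (l i) s ≠ 0 :=
    Complex.slitPlane_ne_zero (slit E v (hl i).le hs)
  rw [Complex.exp_neg, Complex.exp_log hne]
  congr 1
  rw [LTX84.zw]
  simp only [eval_add, eval_sub, eval_one, eval_mul, eval_C, eval_X, eval_pow]
  ring

lemma norm_FF_le {d : ℕ} (E : WeierstrassCurve K) (v : HeightOneSpectrum (𝓞 K)) {l : Fin d → ℂ}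
    (hl : ∀ i, ‖l i‖ = 1) {s : ℂ} (hs : 3 / 2 ≤ s.re) :
    ‖FF E v l s‖ ≤ d * (14 * xi E v s.re) := by
  rw [FF]
  refine (norm_sum_le _ _).trans ?_
  refine (Finset.sum_le_sum fun i _ => LTX84.norm_lam_le E v (hl i).le hs).trans ?_
  simp

lemma hasDerivAt_FF {d : ℕ} (E : WeierstrassCurve K) (v : HeightOneSpectrum (𝓞 K))
    {l : Fin d → ℂ} (hl : ∀ i, ‖l i‖ = 1) {s : ℂ} (hs : 3 / 2 ≤ s.re) :
    HasDerivAt (FF E v l) (-(((Real.log (nm v) : ℝ) : ℂ) * DD E v l s)) s := by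
  have h1 := HasDerivAt.fun_sum (u := Finset.univ) fun i _ => hasDerivAt_lam E v (hl i).le hs
  refine h1.congr_deriv ?_
  rw [DD, Finset.mul_sum, ← Finset.sum_neg_distrib]

lemma local_le_FF {d : ℕ} (E : WeierstrassCurve K) (v : HeightOneSpectrum (𝓞 K))
    {l : Fin d → ℂ} (hl : ∀ i, ‖l i‖ = 1) {s : ℂ} (hs : 3 / 2 ≤ s.re) :
    Real.log (nm v) * ‖DD E v l s - cc E v * ((∑ i, l i) * (nm v : ℂ) ^ (-(s - 1 / 2)))‖ ≤
      d * bd v := by
  have h1 : DD E v l s - cc E v * ((∑ i, l i) * (nm v : ℂ) ^ (-(s - 1 / 2))) =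
      ∑ i, (nw E v (l i) s / (1 - LTX84.zw E v (l i) s) -
        cc E v * (l i * (nm v : ℂ) ^ (-(s - 1 / 2)))) := by
    rw [DD, Finset.sum_sub_distrib, ← Finset.mul_sum, ← Finset.sum_mul]
  have hl0 : 0 ≤ Real.log (nm v) := (log_nm_pos v).le
  rw [h1]
  calc _ ≤ Real.log (nm v) * ∑ i, ‖nw E v (l i) s / (1 - LTX84.zw E v (l i) s) -
        cc E v * (l i * (nm v : ℂ) ^ (-(s - 1 / 2)))‖ :=
        mul_le_mul_of_nonneg_left (norm_sum_le _ _) hl0
    _ = ∑ i, Real.log (nm v) * ‖nw E v (l i) s / (1 - LTX84.zw E v (l i) s) -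
        cc E v * (l i * (nm v : ℂ) ^ (-(s - 1 / 2)))‖ := Finset.mul_sum _ _ _
    _ ≤ ∑ _i : Fin d, bd v := Finset.sum_le_sum fun i _ => local_le E v (hl i).le hs
    _ = d * bd v := by simp

end LTWL36

open LTWL36 Pool.Agent.Lib.MP_bf61d2_nt.Artin.Ray.LELOG36 in
/-- LTWL, uniformly in the curve and in the height. -/
theorem logDeriv_LTw_uniform {K : Type u} [Field K] [NumberField K] {M : Type*} [Field M]
    [NumberField M] [Algebra K M] {V : Type*} [AddCommGroup V] [Module ℂ V]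
    [FiniteDimensional ℂ V] (ρ : Representation ℂ Gal(M/K) V)
    (Fr : HeightOneSpectrum (𝓞 K) → Gal(M/K)) {S : Set (HeightOneSpectrum (𝓞 K))}
    (hS : S.Finite) : ∃ C : ℝ, 0 ≤ C ∧ ∀ (E : WeierstrassCurve K) (δ t : ℝ), 0 < δ →
      LTw E ρ Fr S ((3 / 2 + δ : ℝ) + t * Complex.I) ≠ 0 ∧
      DifferentiableAt ℂ (LTw E ρ Fr S) ((3 / 2 + δ : ℝ) + t * Complex.I) ∧
      ‖logDeriv (LTw E ρ Fr S) ((3 / 2 + δ : ℝ) + t * Complex.I) +
        SD (K := K) (1 + δ) (fun v => (cc E v : ℂ) * (ρ.character (Fr v) * ph t (nm v)))‖ ≤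
        C := by
  classical
  have hfd : FiniteDimensional K M := Module.Finite.of_restrictScalars_finite ℚ K M
  set d : ℝ := (finrank ℂ V : ℝ) with hd
  have hd0 : 0 ≤ d := Nat.cast_nonneg _
  have hbd0 : ∀ v : HeightOneSpectrum (𝓞 K), 0 ≤ bd v := fun v => by rw [bd]; positivity
  choose l hl1 hl2 hl3 using fun v => exists_ev ρ (Fr v)
  refine ⟨d * (∑' v : HeightOneSpectrum (𝓞 K), bd v) +
    ∑ v ∈ hS.toFinset, d * Real.log (nm v), ?_, ?_⟩
  · have h1 : 0 ≤ ∑' v : HeightOneSpectrum (𝓞 K), bd v := tsum_nonneg hbd0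
    have h2 : 0 ≤ ∑ v ∈ hS.toFinset, d * Real.log (nm v) :=
      Finset.sum_nonneg fun v _ => mul_nonneg hd0 (log_nm_pos v).le
    positivity
  intro E δ t hδ
  set s : ℂ := ((3 / 2 + δ : ℝ) : ℂ) + t * Complex.I with hs
  have hre : s.re = 3 / 2 + δ := by rw [hs]; simp
  have h1 : 3 / 2 < s.re := by rw [hre]; linarith
  set F : {v : HeightOneSpectrum (𝓞 K) // v ∉ S} → ℂ → ℂ := fun v => FF E v.1 (l v.1) with hF
  -- the open half plane
  set σ₀ : ℝ := 3 / 2 + δ / 2 with hσ₀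
  set U : Set ℂ := {s : ℂ | σ₀ < s.re} with hU
  have hUo : IsOpen U := isOpen_lt continuous_const Complex.continuous_re
  have hsU : s ∈ U := by
    change σ₀ < s.re
    rw [hre, hσ₀]
    linarith
  have hUre : ∀ w ∈ U, 3 / 2 < w.re := fun w hw => by
    have : σ₀ < w.re := hw
    linarith
  have hu0 : Summable fun v : HeightOneSpectrum (𝓞 K) => d * (14 * xi E v σ₀) :=
    ((summable_xi E (by rw [hσ₀]; linarith)).mul_left 14).mul_left d
  have hu : Summable fun v : {v : HeightOneSpectrum (𝓞 K) // v ∉ S} => d * (14 * xi E v.1 σ₀) :=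
    hu0.subtype _
  have hFd : ∀ v, DifferentiableOn ℂ (F v) U := fun v w hw =>
    (hasDerivAt_FF E v.1 (hl1 v.1) (hUre w hw).le).differentiableAt.differentiableWithinAt
  have hFle : ∀ v w, w ∈ U → ‖F v w‖ ≤ d * (14 * xi E v.1 σ₀) := by
    intro v w hw
    refine (norm_FF_le E v.1 (hl1 v.1) (hUre w hw).le).trans ?_
    refine mul_le_mul_of_nonneg_left ?_ hd0
    refine mul_le_mul_of_nonneg_left (xi_anti E v.1 ?_) (by norm_num)
    exact (show σ₀ < w.re from hw).le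
  have hLd : DifferentiableAt ℂ (fun w => ∑' v, F v w) s :=
    (Complex.differentiableOn_tsum_of_summable_norm hu hFd hUo hFle).differentiableAt
      (hUo.mem_nhds hsU)
  have hder := Complex.hasSum_deriv_of_summable_norm hu hFd hUo hFle hsU
  have heq : LTw E ρ Fr S =ᶠ[𝓝 s] fun w => Complex.exp (∑' v, F v w) := by
    filter_upwards [hUo.mem_nhds hsU] with w hw
    have hsum : Summable fun v => F v w := Summable.of_norm_bounded hu fun v => hFle v w hw
    have h2 : HasProd (fun v : {v : HeightOneSpectrum (𝓞 K) // v ∉ S} => Complex.exp (F v w))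
        (Complex.exp (∑' v, F v w)) := hsum.hasSum.cexp
    rw [LTw, ← h2.tprod_eq]
    refine tprod_congr fun v => ?_
    exact (exp_FF E ρ v.1 (Fr v.1) (hl1 v.1) (hl3 v.1) (hUre w hw).le).symm
  have hexp : HasDerivAt (fun w => Complex.exp (∑' v, F v w))
      (Complex.exp (∑' v, F v s) * deriv (fun w => ∑' v, F v w) s) s :=
    hLd.hasDerivAt.cexp
  have hLE : HasDerivAt (LTw E ρ Fr S)
      (Complex.exp (∑' v, F v s) * deriv (fun w => ∑' v, F v w) s) s :=
    hexp.congr_of_eventuallyEq heq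
  have hval : LTw E ρ Fr S s = Complex.exp (∑' v, F v s) := heq.self_of_nhds
  have hld : logDeriv (LTw E ρ Fr S) s = deriv (fun w => ∑' v, F v w) s := by
    rw [logDeriv_apply, hLE.deriv, hval]
    exact mul_div_cancel_left₀ _ (Complex.exp_ne_zero _)
  refine ⟨by rw [hval]; exact Complex.exp_ne_zero _, hLE.differentiableAt, ?_⟩
  rw [hld]
  -- the sum of the derivatives
  have hder2 : HasSum (fun v : {v : HeightOneSpectrum (𝓞 K) // v ∉ S} =>
      -(((Real.log (nm v.1) : ℝ) : ℂ) * DD E v.1 (l v.1) s))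
      (deriv (fun w => ∑' v, F v w) s) := by
    have e : (fun v : {v : HeightOneSpectrum (𝓞 K) // v ∉ S} =>
        -(((Real.log (nm v.1) : ℝ) : ℂ) * DD E v.1 (l v.1) s)) = fun v => deriv (F v) s := by
      funext v
      exact ((hasDerivAt_FF E v.1 (hl1 v.1) h1.le).deriv).symm
    rw [e]
    exact hder
  -- the main term
  set m : HeightOneSpectrum (𝓞 K) → ℂ := fun v =>
    (wd (1 + δ) v : ℂ) * ((cc E v : ℂ) * (ρ.character (Fr v) * ph t (nm v))) with hm
  have hm1 : ∀ v, m v = ((Real.log (nm v) : ℝ) : ℂ) *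
      (cc E v * ((∑ i, l v i) * (nm v : ℂ) ^ (-(s - 1 / 2)))) := by
    intro v
    change ((wd (1 + δ) v : ℝ) : ℂ) * ((cc E v : ℂ) * (ρ.character (Fr v) * ph t (nm v))) = _
    rw [hs, cpow_eq_ph, wd, ← hl2]
    push_cast
    ring
  have hm2 : ∀ v, ‖m v‖ ≤ 2 * d * wd (1 + δ) v := by
    intro v
    rw [hm]
    simp only
    rw [norm_mul, norm_mul, norm_mul, norm_ph, Complex.norm_real, Complex.norm_real,
      Real.norm_eq_abs, Real.norm_eq_abs, abs_of_pos (wd_pos _ v), mul_one]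
    have h2 := abs_cc_le E v
    have h3 := norm_character_le ρ (Fr v)
    have h4 := wd_pos (1 + δ) v
    calc wd (1 + δ) v * (|cc E v| * ‖ρ.character (Fr v)‖) ≤ wd (1 + δ) v * (2 * d) := by
          apply mul_le_mul_of_nonneg_left _ h4.le
          exact mul_le_mul h2 h3 (norm_nonneg _) (by norm_num)
      _ = _ := by ring
  have hms : Summable m :=
    Summable.of_norm_bounded ((summable_wd (K := K) (by linarith : 1 < 1 + δ)).mul_left (2 * d)) hm2
  have hms' : Summable fun v : {v : HeightOneSpectrum (𝓞 K) // v ∉ S} => m v.1 := hms.subtype _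
  have hSD : SD (K := K) (1 + δ) (fun v => (cc E v : ℂ) * (ρ.character (Fr v) * ph t (nm v))) =
      ∑' v, m v := rfl
  rw [hSD]
  have h2 : ‖deriv (fun w => ∑' v, F v w) s +
      ∑' v : {v : HeightOneSpectrum (𝓞 K) // v ∉ S}, m v.1‖ ≤
      d * ∑' v : HeightOneSpectrum (𝓞 K), bd v := by
    rw [← hder2.tsum_eq, ← hder2.summable.tsum_add hms']
    have hb : Summable fun v : HeightOneSpectrum (𝓞 K) => d * bd v := summable_bd.mul_left d
    have hb' : Summable fun v : {v : HeightOneSpectrum (𝓞 K) // v ∉ S} => d * bd v.1 :=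
      hb.subtype _
    refine (tsum_of_norm_bounded hb'.hasSum fun v => ?_).trans ?_
    · rw [hm1]
      have e : -(((Real.log (nm v.1) : ℝ) : ℂ) * DD E v.1 (l v.1) s) +
          ((Real.log (nm v.1) : ℝ) : ℂ) *
            (cc E v.1 * ((∑ i, l v.1 i) * (nm v.1 : ℂ) ^ (-(s - 1 / 2)))) =
          -(((Real.log (nm v.1) : ℝ) : ℂ) * (DD E v.1 (l v.1) s -
            cc E v.1 * ((∑ i, l v.1 i) * (nm v.1 : ℂ) ^ (-(s - 1 / 2))))) := by ring
      rw [e, norm_neg, norm_mul, Complex.norm_real, Real.norm_eq_abs,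
        abs_of_nonneg (log_nm_pos v.1).le]
      exact local_le_FF E v.1 (hl1 v.1) h1.le
    · rw [← tsum_mul_left]
      exact hb.tsum_subtype_le _ {v | v ∉ S} (fun v => mul_nonneg hd0 (hbd0 v))
  have h3 : ‖∑' v : {v : HeightOneSpectrum (𝓞 K) // v ∉ S}, m v.1 - ∑' v, m v‖ ≤
      ∑ v ∈ hS.toFinset, d * Real.log (nm v) := by
    have h4 := hms.sum_add_tsum_subtype_compl hS.toFinset
    have h5 : ∑' v : {v : HeightOneSpectrum (𝓞 K) // v ∉ S}, m v.1 =
        ∑' v : {v : HeightOneSpectrum (𝓞 K) // v ∉ hS.toFinset}, m v.1 := by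
      have hset : {v : HeightOneSpectrum (𝓞 K) | v ∉ S} = {v | v ∉ hS.toFinset} := by
        ext v
        simp
      exact tsum_congr_set_coe m hset
    rw [h5, ← h4, sub_add_cancel_right, norm_neg]
    refine (norm_sum_le _ _).trans ?_
    refine Finset.sum_le_sum fun v _ => (hm2 v).trans ?_
    have h6 := wp_le_half (by linarith : 1 ≤ 1 + δ) v
    have h7 := log_nm_pos v
    have h8 : wd (1 + δ) v ≤ 1 / 2 * Real.log (nm v) := mul_le_mul_of_nonneg_right h6 h7.le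
    calc 2 * d * wd (1 + δ) v ≤ 2 * d * (1 / 2 * Real.log (nm v)) := by gcongr
      _ = d * Real.log (nm v) := by ring
  calc _ = ‖(deriv (fun w => ∑' v, F v w) s +
        ∑' v : {v : HeightOneSpectrum (𝓞 K) // v ∉ S}, m v.1) -
        (∑' v : {v : HeightOneSpectrum (𝓞 K) // v ∉ S}, m v.1 - ∑' v, m v)‖ := by
        congr 1
        ring
    _ ≤ ‖deriv (fun w => ∑' v, F v w) s +
        ∑' v : {v : HeightOneSpectrum (𝓞 K) // v ∉ S}, m v.1‖ +
        ‖∑' v : {v : HeightOneSpectrum (𝓞 K) // v ∉ S}, m v.1 - ∑' v, m v‖ := norm_sub_le _ _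
    _ ≤ _ := add_le_add h2 h3

/-- LTWL: the logarithmic derivative of the Euler product of the twist. -/
theorem logDeriv_LTw {K : Type u} [Field K] [NumberField K] {M : Type*} [Field M]
    [NumberField M] [Algebra K M] (E : WeierstrassCurve K) {V : Type*} [AddCommGroup V]
    [Module ℂ V] [FiniteDimensional ℂ V] (ρ : Representation ℂ Gal(M/K) V)
    (Fr : HeightOneSpectrum (𝓞 K) → Gal(M/K)) {S : Set (HeightOneSpectrum (𝓞 K))}
    (hS : S.Finite) (t : ℝ) : ∃ C : ℝ, 0 ≤ C ∧ ∀ δ : ℝ, 0 < δ →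
      LTw E ρ Fr S ((3 / 2 + δ : ℝ) + t * Complex.I) ≠ 0 ∧
      DifferentiableAt ℂ (LTw E ρ Fr S) ((3 / 2 + δ : ℝ) + t * Complex.I) ∧
      ‖logDeriv (LTw E ρ Fr S) ((3 / 2 + δ : ℝ) + t * Complex.I) +
        SD (K := K) (1 + δ) (fun v => (cc E v : ℂ) * (ρ.character (Fr v) * ph t (nm v)))‖ ≤
        C := by
  obtain ⟨C, h0, h⟩ := logDeriv_LTw_uniform ρ Fr hS
  exact ⟨C, h0, fun δ hδ => h E δ t hδ⟩

end Pool.Agent.Lib.MP_bf61d2_nt.Artin.LA
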