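import Pool.Agent.Lib.MP_bf61d2_nt.Artin.LA.DefsLA63
import Pool.Agent.Lib.MP_bf61d2_nt.Perm.Equi

set_option autoImplicit false

/-!
ARTIN EDGE, local form (MP_bf61d2_nt), module REGL: sums over the places of an extension and of the
base field, with logarithms.
-/

namespace Pool.Agent.Lib.MP_bf61d2_nt.Artin.LA

open NumberField IsDedekindDomain Filter Topology
open Pool.Agent.Lib.MP_bf61d2_nt.Perm

section Basic

variable {K : Type*} [Field K] [NumberField K]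

lemma log_le_half77 {x : ℝ} (hx : 0 < x) : Real.log x ≤ x / 2 := by
  have h1 := Real.log_le_sub_one_of_pos (show 0 < x / 2 by positivity)
  rw [Real.log_div hx.ne' two_ne_zero] at h1
  have := Real.log_two_lt_d9
  linarith

lemma wd_le_half {σ : ℝ} (hσ : 1 ≤ σ) (v : HeightOneSpectrum (𝓞 K)) : wd σ v ≤ 1 / 2 := by
  have h0 : (0 : ℝ) < nm v := nm_pos' v
  have h1 : (1 : ℝ) ≤ nm v := by exact_mod_cast (one_lt_nm v).le
  have h2 : wp σ v ≤ (nm v : ℝ)⁻¹ := by
    rw [← Real.rpow_neg_one]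
    exact Real.rpow_le_rpow_of_exponent_le h1 (by linarith)
  calc wd σ v ≤ (nm v : ℝ)⁻¹ * ((nm v : ℝ) / 2) :=
        mul_le_mul h2 (log_le_half77 h0) (log_nm_pos v).le (by positivity)
    _ = 1 / 2 := by field_simp

/-- The majorant of the weights at the places of higher degree. -/
noncomputable def pb {K : Type*} [Field K] [NumberField K] (v : HeightOneSpectrum (𝓞 K)) : ℝ :=
  4 * (pr v : ℝ) ^ (-(3 / 2) : ℝ)

lemma pb_nonneg (v : HeightOneSpectrum (𝓞 K)) : 0 ≤ pb v := by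
  unfold pb
  positivity

lemma summable_pb : Summable fun v : HeightOneSpectrum (𝓞 K) => pb v :=
  (summable_pr (h := fun n : ℕ => (n : ℝ) ^ (-(3 / 2) : ℝ)) (fun n => by positivity)
    (Real.summable_nat_rpow.mpr (by norm_num))).mul_left 4

/-- The sum of the majorants. -/
noncomputable def pbS (K : Type*) [Field K] [NumberField K] : ℝ :=
  ∑' v : HeightOneSpectrum (𝓞 K), pb v

lemma pbS_nonneg : 0 ≤ pbS K := tsum_nonneg fun v => pb_nonneg v

lemma wd_le_of {σ : ℝ} (hσ : 1 ≤ σ) (w : HeightOneSpectrum (𝓞 K)) {p : ℕ} (hp : 0 < p)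
    (h : p ^ 2 ≤ nm w) : wd σ w ≤ 4 * (p : ℝ) ^ (-(3 / 2) : ℝ) := by
  have h0 : (0 : ℝ) < nm w := nm_pos' w
  have h1 : (1 : ℝ) ≤ nm w := by exact_mod_cast (one_lt_nm w).le
  have hp0 : (0 : ℝ) < p := by exact_mod_cast hp
  have h2 : wp σ w ≤ (nm w : ℝ) ^ (-1 : ℝ) :=
    Real.rpow_le_rpow_of_exponent_le h1 (by linarith)
  have h3 := Real.log_le_rpow_div h0.le (ε := 1 / 4) (by norm_num)
  have h4 : ((p : ℝ) ^ (2 : ℝ)) ≤ nm w := by
    rw [Real.rpow_two]
    exact_mod_cast h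
  calc wd σ w ≤ (nm w : ℝ) ^ (-1 : ℝ) * ((nm w : ℝ) ^ (1 / 4 : ℝ) / (1 / 4)) :=
        mul_le_mul h2 h3 (log_nm_pos w).le (by positivity)
    _ = 4 * (nm w : ℝ) ^ (-(3 / 4) : ℝ) := by
        have : (nm w : ℝ) ^ (-(3 / 4) : ℝ) = (nm w : ℝ) ^ (-1 : ℝ) * (nm w : ℝ) ^ (1 / 4 : ℝ) := by
          rw [← Real.rpow_add h0]
          norm_num
        rw [this]
        ring
    _ ≤ 4 * ((p : ℝ) ^ (2 : ℝ)) ^ (-(3 / 4) : ℝ) := by
        refine mul_le_mul_of_nonneg_left ?_ (by norm_num)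
        exact Real.rpow_le_rpow_of_nonpos (by positivity) h4 (by norm_num)
    _ = _ := by
        rw [← Real.rpow_mul hp0.le]
        norm_num

lemma norm_wd (σ : ℝ) (v : HeightOneSpectrum (𝓞 K)) : ‖(wd σ v : ℂ)‖ = wd σ v := by
  rw [Complex.norm_real, Real.norm_eq_abs, abs_of_pos (wd_pos σ v)]

lemma summable_SD {σ : ℝ} (hσ : 1 < σ) {f : HeightOneSpectrum (𝓞 K) → ℂ} {B : ℝ}
    (hf : ∀ v, ‖f v‖ ≤ B) : Summable fun v => (wd σ v : ℂ) * f v := by
  refine Summable.of_norm_bounded ((summable_wd (K := K) hσ).mul_right B) fun v => ?_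
  rw [norm_mul, norm_wd]
  exact mul_le_mul_of_nonneg_left (hf v) (wd_pos σ v).le

lemma norm_SD_le {σ : ℝ} (hσ : 1 < σ) {f : HeightOneSpectrum (𝓞 K) → ℂ} {B : ℝ}
    (hf : ∀ v, ‖f v‖ ≤ B) : ‖SD σ f‖ ≤ (∑' v : HeightOneSpectrum (𝓞 K), wd σ v) * B := by
  refine tsum_of_norm_bounded ((summable_wd (K := K) hσ).hasSum.mul_right B) fun v => ?_
  rw [norm_mul, norm_wd]
  exact mul_le_mul_of_nonneg_left (hf v) (wd_pos σ v).le

lemma SD_re {σ : ℝ} (hσ : 1 < σ) {f : HeightOneSpectrum (𝓞 K) → ℂ} {B : ℝ}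
    (hf : ∀ v, ‖f v‖ ≤ B) : (SD σ f).re = ∑' v, wd σ v * (f v).re := by
  rw [SD, Complex.re_tsum (summable_SD hσ hf)]
  exact tsum_congr fun v => Complex.re_ofReal_mul _ _

lemma SD_sub {σ : ℝ} (hσ : 1 < σ) {f g : HeightOneSpectrum (𝓞 K) → ℂ} {B : ℝ}
    (hf : ∀ v, ‖f v‖ ≤ B) (hg : ∀ v, ‖g v‖ ≤ B) :
    SD σ f - SD σ g = SD σ fun v => f v - g v := by
  rw [SD, SD, SD, ← (summable_SD hσ hf).tsum_sub (summable_SD hσ hg)]
  refine tsum_congr fun v => ?_
  ring

lemma SD_add {σ : ℝ} (hσ : 1 < σ) {f g : HeightOneSpectrum (𝓞 K) → ℂ} {B B' : ℝ}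
    (hf : ∀ v, ‖f v‖ ≤ B) (hg : ∀ v, ‖g v‖ ≤ B') :
    SD σ f + SD σ g = SD σ fun v => f v + g v := by
  rw [SD, SD, SD, ← (summable_SD hσ hf).tsum_add (summable_SD hσ hg)]
  refine tsum_congr fun v => ?_
  ring

lemma SD_const_mul (σ : ℝ) (a : ℂ) (f : HeightOneSpectrum (𝓞 K) → ℂ) :
    SD σ (fun v => a * f v) = a * SD σ f := by
  rw [SD, SD, ← tsum_mul_left]
  refine tsum_congr fun v => ?_
  ring

/-- A sum with finitely many nonzero terms is bounded. -/
lemma norm_SD_finite {σ : ℝ} (hσ : 1 < σ) {f : HeightOneSpectrum (𝓞 K) → ℂ} {B : ℝ}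
    (hf : ∀ v, ‖f v‖ ≤ B) (S : Finset (HeightOneSpectrum (𝓞 K))) (h0 : ∀ v, v ∉ S → f v = 0) :
    ‖SD σ f‖ ≤ S.card * B := by
  rw [SD, tsum_eq_sum (s := S) fun v hv => by rw [h0 v hv, mul_zero]]
  refine (norm_sum_le _ _).trans ?_
  rw [← nsmul_eq_mul, ← Finset.sum_const]
  refine Finset.sum_le_sum fun v _ => ?_
  rw [norm_mul, norm_wd]
  have h1 : (0 : ℝ) ≤ ‖f v‖ := norm_nonneg _
  calc wd σ v * ‖f v‖ ≤ 1 * ‖f v‖ := by
        refine mul_le_mul_of_nonneg_right ((wd_le_half hσ.le v).trans (by norm_num)) h1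
    _ = ‖f v‖ := one_mul _
    _ ≤ B := hf v

/-- Functions that agree outside a finite set of places. -/
lemma SD_congr_fin {a b : HeightOneSpectrum (𝓞 K) → ℂ} {A : ℝ} (ha : ∀ v, ‖a v‖ ≤ A)
    (hb : ∀ v, ‖b v‖ ≤ A) (S : Finset (HeightOneSpectrum (𝓞 K))) (h : ∀ v, v ∉ S → a v = b v)
    {σ : ℝ} (hσ : 1 < σ) : ‖SD σ a - SD σ b‖ ≤ S.card * (2 * A) := by
  rw [SD_sub hσ ha hb]
  refine norm_SD_finite hσ (fun v => ?_) S fun v hv => by rw [h v hv, sub_self]
  have := (norm_sub_le (a v) (b v)).trans (add_le_add (ha v) (hb v))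
  linarith

end Basic

section Ext

variable {K L : Type*} [Field K] [NumberField K] [Field L] [NumberField L] [Algebra K L]

/-- REGL: sums over the places of an extension and over the places of the base field. -/
theorem regroupL {a : HeightOneSpectrum (𝓞 L) → ℂ} {b : HeightOneSpectrum (𝓞 K) → ℂ} {A : ℝ}
    (ha : ∀ w, ‖a w‖ ≤ A) (hb : ∀ v, ‖b v‖ ≤ A) (S : Finset (HeightOneSpectrum (𝓞 K)))
    (hab : ∀ w : HeightOneSpectrum (𝓞 L), dn (K := K) w ∉ S → nm w = nm (dn (K := K) w) →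
      a w = b (dn (K := K) w)) :
    ∃ C : ℝ, 0 ≤ C ∧ ∀ g : ℕ → ℂ, (∀ n, ‖g n‖ ≤ 1) → ∀ σ : ℝ, 1 < σ →
      ‖SD (K := L) σ (fun w => a w * g (nm w)) -
        SD (K := K) σ (fun v => (r1 L v : ℂ) * (b v * g (nm v)))‖ ≤ C := by
  classical
  have hA0 : 0 ≤ A := by
    by_contra hcon
    have h1 : IsEmpty (HeightOneSpectrum (𝓞 K)) := ⟨fun v => by
      have := (norm_nonneg _).trans (hb v)
      linarith⟩
    have h2 : ¬ (Nonempty (HeightOneSpectrum (𝓞 K))) := not_nonempty_iff.mpr h1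
    apply h2
    obtain ⟨M, hM⟩ := Ideal.exists_maximal (𝓞 K)
    exact ⟨⟨M, hM.isPrime, Ring.ne_bot_of_isMaximal_of_not_isField hM
      (RingOfIntegers.not_isField K)⟩⟩
  set n : ℕ := Module.finrank (𝓞 K) (𝓞 L) with hn
  have hsqC : 0 ≤ pbS K := pbS_nonneg
  refine ⟨n * A * pbS K + n * A * S.card, by positivity, ?_⟩
  intro g hg σ hσ
  have hag : ∀ w : HeightOneSpectrum (𝓞 L), ‖a w * g (nm w)‖ ≤ A := fun w => by
    rw [norm_mul]
    calc _ ≤ A * 1 := mul_le_mul (ha w) (hg _) (norm_nonneg _) hA0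
      _ = A := mul_one A
  have hbg : ∀ v : HeightOneSpectrum (𝓞 K), ‖b v * g (nm v)‖ ≤ A := fun v => by
    rw [norm_mul]
    calc _ ≤ A * 1 := mul_le_mul (hb v) (hg _) (norm_nonneg _) hA0
      _ = A := mul_one A
  have hbg' : ∀ v : HeightOneSpectrum (𝓞 K), ‖(r1 L v : ℂ) * (b v * g (nm v))‖ ≤ n * A :=
    fun v => by
    rw [norm_mul, Complex.norm_natCast]
    have : (r1 L v : ℝ) ≤ n := by exact_mod_cast r1_le v
    exact mul_le_mul this (hbg v) (norm_nonneg _) (Nat.cast_nonneg _)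
  have hsL : Summable fun w : HeightOneSpectrum (𝓞 L) => (wd σ w : ℂ) * (a w * g (nm w)) :=
    summable_SD hσ hag
  have hsK : Summable fun v : HeightOneSpectrum (𝓞 K) =>
      (wd σ v : ℂ) * ((r1 L v : ℂ) * (b v * g (nm v))) := summable_SD hσ hbg'
  have hphi := hsL.hasSum.tsum_fiberwise (dn (K := K))
  have hdiff := hphi.sub hsK.hasSum
  have hg1 : HasSum (fun v : HeightOneSpectrum (𝓞 K) => n * A * pb v)
      (n * A * pbS K) := summable_pb.hasSum.mul_left _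
  have hg2 : HasSum (fun v : HeightOneSpectrum (𝓞 K) => if v ∈ S then (n * A : ℝ) else 0)
      (n * A * S.card) := by
    have h3 : HasSum (fun v : HeightOneSpectrum (𝓞 K) => if v ∈ S then (n * A : ℝ) else 0)
      (∑ v ∈ S, if v ∈ S then (n * A : ℝ) else 0) :=
      hasSum_sum_of_ne_finset_zero fun v hv => if_neg hv
    have h4 : ∑ v ∈ S, (if v ∈ S then (n * A : ℝ) else 0) = n * A * S.card := by
      rw [Finset.sum_congr rfl fun v hv => if_pos hv, Finset.sum_const, nsmul_eq_mul, mul_comm]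
    rwa [h4] at h3
  have hgg := hg1.add hg2
  rw [SD, SD, ← hdiff.tsum_eq]
  refine tsum_of_norm_bounded hgg fun v => ?_
  obtain ⟨T, hT, hcard⟩ := exists_fiber' L v
  have hset : ((dn (K := K) (L := L)) ⁻¹' {v} : Set (HeightOneSpectrum (𝓞 L))) =
      (T : Set (HeightOneSpectrum (𝓞 L))) := by
    ext w
    rw [Set.mem_preimage, Set.mem_singleton_iff, Finset.mem_coe, hT]
  have hfib : ∑' w : ((dn (K := K) (L := L)) ⁻¹' {v} : Set (HeightOneSpectrum (𝓞 L))),
      (wd σ (w : HeightOneSpectrum (𝓞 L)) : ℂ) * (a w * g (nm (w : HeightOneSpectrum (𝓞 L)))) =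
      ∑ w ∈ T, (wd σ w : ℂ) * (a w * g (nm w)) := by
    rw [hset, Finset.tsum_subtype' T (fun w => (wd σ w : ℂ) * (a w * g (nm w)))]
  rw [hfib]
  by_cases hv : v ∈ S
  · rw [if_pos hv]
    have h1 : ‖∑ w ∈ T, (wd σ w : ℂ) * (a w * g (nm w))‖ ≤ n * A * (1 / 2) := by
      calc _ ≤ ∑ _w ∈ T, (1 / 2 * A : ℝ) := by
            refine (norm_sum_le _ _).trans (Finset.sum_le_sum fun w _ => ?_)
            rw [norm_mul, norm_wd]
            exact mul_le_mul (wd_le_half hσ.le w) (hag w) (norm_nonneg _) (by norm_num)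
        _ = T.card * (1 / 2 * A) := by rw [Finset.sum_const, nsmul_eq_mul]
        _ ≤ n * (1 / 2 * A) := by
            have : (T.card : ℝ) ≤ n := by exact_mod_cast hcard
            gcongr
        _ = _ := by ring
    have h2 : ‖(wd σ v : ℂ) * ((r1 L v : ℂ) * (b v * g (nm v)))‖ ≤ n * A * (1 / 2) := by
      rw [norm_mul, norm_wd]
      calc _ ≤ 1 / 2 * (n * A) :=
            mul_le_mul (wd_le_half hσ.le v) (hbg' v) (norm_nonneg _) (by norm_num)
        _ = _ := by ring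
    have h3 : 0 ≤ n * A * pb v := by
      have := pb_nonneg v
      positivity
    refine (norm_sub_le _ _).trans ?_
    linarith
  · rw [if_neg hv, add_zero]
    have h1 : (wd σ v : ℂ) * ((r1 L v : ℂ) * (b v * g (nm v))) =
        ∑ w ∈ T.filter (fun w => nm w = nm v), (wd σ w : ℂ) * (a w * g (nm w)) := by
      rw [r1_eq_card v T hT]
      have h2 : ∀ w ∈ T.filter (fun w => nm w = nm v), (wd σ w : ℂ) * (a w * g (nm w)) =
          (wd σ v : ℂ) * (b v * g (nm v)) := by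
        intro w hw
        obtain ⟨hw1, hw2⟩ := Finset.mem_filter.mp hw
        have hwv : dn (K := K) w = v := (hT w).mp hw1
        have h3 := hab w (by rw [hwv]; exact hv) (by rw [hwv]; exact hw2)
        rw [h3, hwv, wd, wd, wp, wp, hw2]
      rw [Finset.sum_congr rfl h2, Finset.sum_const, nsmul_eq_mul]
      ring
    rw [h1, ← Finset.sum_filter_add_sum_filter_not T (fun w => nm w = nm v), add_sub_cancel_left]
    calc _ ≤ ∑ _w ∈ T.filter (fun w => ¬ nm w = nm v), (pb v * A) := by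
          refine (norm_sum_le _ _).trans (Finset.sum_le_sum fun w hw => ?_)
          obtain ⟨hw1, hw2⟩ := Finset.mem_filter.mp hw
          have hwv : dn (K := K) w = v := (hT w).mp hw1
          have h7 := sq_nm_dn_le w (by rw [hwv]; exact hw2)
          rw [hwv] at h7
          have h8 : pr v ^ 2 ≤ nm w := (Nat.pow_le_pow_left (pr_le_nm v) 2).trans h7
          rw [norm_mul, norm_wd]
          exact mul_le_mul (wd_le_of hσ.le w (pr_prime v).pos h8) (hag w) (norm_nonneg _)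
            (pb_nonneg v)
      _ = (T.filter (fun w => ¬ nm w = nm v)).card * (pb v * A) := by
          rw [Finset.sum_const, nsmul_eq_mul]
      _ ≤ n * (pb v * A) := by
          have h9 : ((T.filter (fun w => ¬ nm w = nm v)).card : ℝ) ≤ n := by
            exact_mod_cast (Finset.card_filter_le _ _).trans hcard
          have := pb_nonneg v
          gcongr
      _ = _ := by ring

end Ext

section Swap

variable {K M : Type*} [Field K] [NumberField K] [Field M] [NumberField M] [Algebra K M]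

/-- Replacing the number of places of degree one by the number of fixed embeddings. -/
theorem swapL {Fr : HeightOneSpectrum (𝓞 K) → Gal(M/K)} {F : IntermediateField K M}
    (hF : {v : HeightOneSpectrum (𝓞 K) | r1 F v ≠ fx F (Fr v)}.Finite) [Finite Gal(M/K)] :
    ∃ C : ℝ, 0 ≤ C ∧ ∀ σ : ℝ, 1 < σ → ∀ x : HeightOneSpectrum (𝓞 K) → ℂ, (∀ v, ‖x v‖ ≤ 2) →
      ‖SD (K := K) σ (fun v => (r1 F v : ℂ) * x v) -
        SD (K := K) σ (fun v => (fx F (Fr v) : ℂ) * x v)‖ ≤ C := by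
  classical
  have := Fintype.ofFinite Gal(M/K)
  set A : ℝ := Module.finrank (𝓞 K) (𝓞 F) * 2 + (∑ g : Gal(M/K), (fx F g : ℝ)) * 2 with hA
  have hs0 : 0 ≤ ∑ g : Gal(M/K), (fx F g : ℝ) := Finset.sum_nonneg fun _ _ => Nat.cast_nonneg _
  have hA0 : 0 ≤ A := by positivity
  refine ⟨hF.toFinset.card * (2 * A), by positivity, fun σ hσ x hx => ?_⟩
  refine SD_congr_fin (fun v => ?_) (fun v => ?_) hF.toFinset (fun v hv => ?_) hσ
  · rw [norm_mul, Complex.norm_natCast]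
    have h1 : (r1 F v : ℝ) ≤ Module.finrank (𝓞 K) (𝓞 F) := by exact_mod_cast r1_le v
    have h2 := mul_le_mul h1 (hx v) (norm_nonneg _) (Nat.cast_nonneg _)
    linarith
  · rw [norm_mul, Complex.norm_natCast]
    have h1 : (fx F (Fr v) : ℝ) ≤ ∑ g : Gal(M/K), (fx F g : ℝ) :=
      Finset.single_le_sum (f := fun g : Gal(M/K) => (fx F g : ℝ)) (fun g _ => Nat.cast_nonneg _)
        (Finset.mem_univ _)
    have h2 := mul_le_mul h1 (hx v) (norm_nonneg _) hs0
    have h3 : (0 : ℝ) ≤ Module.finrank (𝓞 K) (𝓞 F) * 2 := by positivity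
    linarith
  · have : r1 F v = fx F (Fr v) := by
      by_contra hcon
      exact hv (hF.mem_toFinset.mpr hcon)
    rw [this]

end Swap

end Pool.Agent.Lib.MP_bf61d2_nt.Artin.LA
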